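import Mathlib

open MeasureTheory Complex
open scoped Real ENNReal ComplexConjugate

namespace Pool.Agent.Results.MP_476b1b_an.NoBasis

/-- The measure `mu t = m_{[t,t+1]} x delta_0 + delta_0 x m_{[t,t+1]}` on the plane. -/
noncomputable def mu (t : ℝ) : Measure (ℝ × ℝ) :=
  (volume.restrict (Set.Icc t (t + 1))).map (fun x : ℝ => (x, (0 : ℝ)))
    + (volume.restrict (Set.Icc t (t + 1))).map (fun y : ℝ => ((0 : ℝ), y))

/-- The exponential `exp(2 pi i (l_1 x + l_2 y))`. -/
noncomputable def ex (l p : ℝ × ℝ) : ℂ :=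
  Complex.exp (2 * π * I * ((l.1 * p.1 + l.2 * p.2 : ℝ) : ℂ))

/-- `E(Lam)` is a tight frame of `L^2(mu t)` with constant `A`. -/
def IsTight (t : ℝ) (Lam : Set (ℝ × ℝ)) (A : ℝ) : Prop :=
  ∀ f : ℝ × ℝ → ℂ, MemLp f 2 (mu t) →
    HasSum (fun l : Lam => ‖∫ p, f p * conj (ex l p) ∂(mu t)‖ ^ 2)
      (A * ∫ p, ‖f p‖ ^ 2 ∂(mu t))

/-- `E(Lam)`, normalised by the factor `1/sqrt 2`, is an orthonormal (Hilbert) basis of
`L^2(mu t)`. -/
def IsONB (t : ℝ) (Lam : Set (ℝ × ℝ)) : Prop :=
  ∃ b : HilbertBasis Lam ℂ (Lp ℂ 2 (mu t)),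
    ∀ l : Lam, (b l : ℝ × ℝ → ℂ) =ᵐ[mu t] fun p => ((1 / √2 : ℝ) : ℂ) * ex l p

lemma meas_one : Measurable (fun x : ℝ => (x, (0 : ℝ))) := by fun_prop
lemma meas_two : Measurable (fun y : ℝ => ((0 : ℝ), y)) := by fun_prop

instance (t : ℝ) : IsFiniteMeasure (mu t) := by
  unfold mu
  infer_instance

lemma integral_mu {E : Type*} [NormedAddCommGroup E] [NormedSpace ℝ E] (t : ℝ)
    (F : ℝ × ℝ → E) (hF : StronglyMeasurable F) (hb : ∃ C, ∀ p, ‖F p‖ ≤ C) :
    ∫ p, F p ∂(mu t) = (∫ x in Set.Icc t (t + 1), F (x, 0))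
      + ∫ y in Set.Icc t (t + 1), F (0, y) := by
  obtain ⟨C, hC⟩ := hb
  unfold mu
  rw [integral_add_measure, integral_map meas_one.aemeasurable hF.aestronglyMeasurable,
    integral_map meas_two.aemeasurable hF.aestronglyMeasurable]
  · exact Integrable.of_bound hF.aestronglyMeasurable C (Filter.Eventually.of_forall hC)
  · exact Integrable.of_bound hF.aestronglyMeasurable C (Filter.Eventually.of_forall hC)

/-- The triangle function. -/
noncomputable def tri (d x : ℝ) : ℝ := max 0 (d - |x|)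

lemma tri_nonneg (d x : ℝ) : 0 ≤ tri d x := le_max_left _ _

lemma tri_cont (d : ℝ) : Continuous (tri d) := by
  unfold tri; fun_prop

lemma tri_le (d x : ℝ) (hd : 0 < d) : tri d x ≤ d := by
  unfold tri
  have := abs_nonneg x
  apply max_le hd.le; linarith

lemma tri_zero (d x : ℝ) (hx : d ≤ |x|) : tri d x = 0 := by
  unfold tri
  exact max_eq_left (by linarith)

/-- The half integral of the triangle function against a cosine. -/
lemma half (d c : ℝ) (hd : 0 < d) (hc : c ≠ 0) :
    ∫ x in (0 : ℝ)..d, (d - x) * Real.cos (c * x) = (1 - Real.cos (c * d)) / c ^ 2 := by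
  have key : ∀ x ∈ Set.uIcc 0 d,
      HasDerivAt (fun x : ℝ => (d - x) * (Real.sin (c * x) / c) - Real.cos (c * x) / c ^ 2)
        ((d - x) * Real.cos (c * x)) x := by
    intro x _
    have h1 : HasDerivAt (fun x : ℝ => c * x) c x := by
      simpa using (hasDerivAt_id x).const_mul c
    have h2 := h1.sin.div_const c
    have h3 := h1.cos.div_const (c ^ 2)
    have h4 : HasDerivAt (fun x : ℝ => d - x) (-1) x := by
      simpa using (hasDerivAt_id x).const_sub d
    have h5 := (h4.mul h2).sub h3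
    have e : (d - x) * Real.cos (c * x) = (-1 * (Real.sin (c * x) / c)
        + (d - x) * (Real.cos (c * x) * c / c)) - (-Real.sin (c * x) * c / c ^ 2) := by
      field_simp
      ring
    rw [e]
    exact h5
  rw [intervalIntegral.integral_eq_sub_of_hasDerivAt key
    ((by fun_prop : Continuous fun x : ℝ => (d - x) * Real.cos (c * x)).intervalIntegrable _ _)]
  simp
  field_simp
  ring

lemma half0 (d : ℝ) : ∫ x in (0 : ℝ)..d, (d - x) * Real.cos (0 * x) = d ^ 2 / 2 := by
  have : ∀ x : ℝ, (d - x) * Real.cos (0 * x) = d - x := by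
    intro x; simp
  simp only [this]
  rw [intervalIntegral.integral_sub (f := fun _ => d) (g := fun x => x) intervalIntegrable_const
    (continuous_id.intervalIntegrable _ _)]
  simp
  ring

lemma full (d c : ℝ) (hd : 0 < d) :
    ∃ r : ℝ, 0 ≤ r ∧ (∫ x in (-d)..d, (tri d x : ℂ) * Complex.exp (I * ((c * x : ℝ) : ℂ))) = r
      ∧ (c = 0 → 0 < r) := by
  have hpos : ∀ x ∈ Set.uIcc 0 d, tri d x = d - x := by
    intro x hx
    rw [Set.uIcc_of_le hd.le] at hx
    unfold tri
    rw [abs_of_nonneg hx.1]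
    exact max_eq_right (by linarith [hx.2])
  have hint : ∀ a b : ℝ, IntervalIntegrable
      (fun x : ℝ => (tri d x : ℂ) * Complex.exp (I * ((c * x : ℝ) : ℂ))) volume a b := by
    intro a b
    apply Continuous.intervalIntegrable
    have := tri_cont d
    fun_prop
  have hsplit := (intervalIntegral.integral_add_adjacent_intervals (hint (-d) 0) (hint 0 d)).symm
  have hneg : (∫ x in (-d)..0, (tri d x : ℂ) * Complex.exp (I * ((c * x : ℝ) : ℂ)))
      = ∫ x in (0 : ℝ)..d, (tri d x : ℂ) * Complex.exp (-(I * ((c * x : ℝ) : ℂ))) := by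
    have := intervalIntegral.integral_comp_neg (a := 0) (b := d)
      (fun x : ℝ => (tri d x : ℂ) * Complex.exp (I * ((c * x : ℝ) : ℂ)))
    simp only [neg_zero] at this
    rw [← this]
    apply intervalIntegral.integral_congr
    intro x _
    simp [tri]
  have hsum : (∫ x in (-d)..d, (tri d x : ℂ) * Complex.exp (I * ((c * x : ℝ) : ℂ)))
      = ((2 * ∫ x in (0 : ℝ)..d, (d - x) * Real.cos (c * x) : ℝ) : ℂ) := by
    rw [hsplit, hneg, ← intervalIntegral.integral_add]
    · rw [show ((2 * ∫ x in (0 : ℝ)..d, (d - x) * Real.cos (c * x) : ℝ) : ℂ)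
        = ∫ x in (0 : ℝ)..d, ((2 * ((d - x) * Real.cos (c * x)) : ℝ) : ℂ) by
          rw [intervalIntegral.integral_ofReal, intervalIntegral.integral_const_mul]]
      apply intervalIntegral.integral_congr
      intro x hx
      simp only
      rw [hpos x hx, ← mul_add]
      have : Complex.exp (-(I * ((c * x : ℝ) : ℂ))) + Complex.exp (I * ((c * x : ℝ) : ℂ))
          = 2 * Complex.cos ((c * x : ℝ) : ℂ) := by
        rw [Complex.cos]
        rw [mul_comm I]
        ring_nf
      rw [this, ← Complex.ofReal_cos]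
      push_cast
      ring
    · apply Continuous.intervalIntegrable
      have := tri_cont d
      fun_prop
    · exact hint 0 d
  by_cases hc : c = 0
  · refine ⟨2 * ∫ x in (0 : ℝ)..d, (d - x) * Real.cos (c * x), ?_, hsum, ?_⟩
    · subst hc
      rw [half0]
      positivity
    · intro _
      subst hc
      rw [half0]
      positivity
  · refine ⟨2 * ∫ x in (0 : ℝ)..d, (d - x) * Real.cos (c * x), ?_, hsum, fun h => absurd h hc⟩
    rw [half d c hd hc]
    have := Real.cos_le_one (c * d)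
    positivity

lemma ex_norm (l p : ℝ × ℝ) : ‖ex l p‖ = 1 := by
  unfold ex
  rw [show (2 * π * I * ((l.1 * p.1 + l.2 * p.2 : ℝ) : ℂ))
    = ((2 * π * (l.1 * p.1 + l.2 * p.2) : ℝ) : ℂ) * I by push_cast; ring]
  exact Complex.norm_exp_ofReal_mul_I _

lemma ex_cont (l : ℝ × ℝ) : Continuous (ex l) := by
  unfold ex; fun_prop

/-- bump on the first axis -/
noncomputable def fA (d : ℝ) (l0 : ℝ × ℝ) (p : ℝ × ℝ) : ℂ :=
  if p.2 = 0 then (tri d p.1 : ℂ) * ex l0 p else 0

/-- bump on the second axis -/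
noncomputable def fB (d : ℝ) (l0 : ℝ × ℝ) (p : ℝ × ℝ) : ℂ :=
  if p.1 = 0 then (tri d p.2 : ℂ) * ex l0 p else 0

lemma fA_meas (d : ℝ) (l0 : ℝ × ℝ) : StronglyMeasurable (fA d l0) := by
  apply Measurable.stronglyMeasurable
  unfold fA
  apply Measurable.ite (measurableSet_eq_fun measurable_snd measurable_const)
  · apply Continuous.measurable
    have := tri_cont d
    have := ex_cont l0
    fun_prop
  · exact measurable_const

lemma fB_meas (d : ℝ) (l0 : ℝ × ℝ) : StronglyMeasurable (fB d l0) := by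
  apply Measurable.stronglyMeasurable
  unfold fB
  apply Measurable.ite (measurableSet_eq_fun measurable_fst measurable_const)
  · apply Continuous.measurable
    have := tri_cont d
    have := ex_cont l0
    fun_prop
  · exact measurable_const

lemma fA_le (d : ℝ) (hd : 0 < d) (l0 p : ℝ × ℝ) : ‖fA d l0 p‖ ≤ d := by
  unfold fA
  split_ifs
  · rw [norm_mul, ex_norm, mul_one, Complex.norm_real, Real.norm_of_nonneg (tri_nonneg _ _)]
    exact tri_le d _ hd
  · simpa using hd.le

lemma fB_le (d : ℝ) (hd : 0 < d) (l0 p : ℝ × ℝ) : ‖fB d l0 p‖ ≤ d := by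
  unfold fB
  split_ifs
  · rw [norm_mul, ex_norm, mul_one, Complex.norm_real, Real.norm_of_nonneg (tri_nonneg _ _)]
    exact tri_le d _ hd
  · simpa using hd.le

lemma ae_ne (t : ℝ) : ∀ᵐ x ∂(volume.restrict (Set.Icc t (t + 1))), x ≠ (0 : ℝ) :=
  ae_restrict_of_ae (by
    have : volume ({0} : Set ℝ) = 0 := by simp
    exact measure_eq_zero_iff_ae_notMem.1 this)

/-- The one-dimensional coefficient. -/
lemma coef (t d c : ℝ) (hd : 0 < d) (h1 : d ≤ -t) (h2 : d ≤ t + 1) :
    (∫ x in Set.Icc t (t + 1), (tri d x : ℂ) * Complex.exp (I * ((c * x : ℝ) : ℂ)))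
      = ∫ x in (-d)..d, (tri d x : ℂ) * Complex.exp (I * ((c * x : ℝ) : ℂ)) := by
  rw [intervalIntegral.integral_of_le (by linarith), ← integral_Icc_eq_integral_Ioc]
  apply setIntegral_eq_of_subset_of_forall_sdiff_eq_zero measurableSet_Icc
  · exact Set.Icc_subset_Icc (by linarith) h2
  · intro x hx
    have : d ≤ |x| := by
      by_contra hlt
      rw [not_le] at hlt
      rw [abs_lt] at hlt
      exact hx.2 ⟨hlt.1.le, hlt.2.le⟩
    rw [tri_zero d x this]
    simp

lemma coefA (t d : ℝ) (hd : 0 < d) (h1 : d ≤ -t) (h2 : d ≤ t + 1) (l0 l : ℝ × ℝ) :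
    ∃ r : ℝ, 0 ≤ r ∧ (∫ p, fA d l0 p * conj (ex l p) ∂(mu t)) = r ∧ (l = l0 → 0 < r) := by
  obtain ⟨r, hr, he, hp⟩ := full d (2 * π * (l0.1 - l.1)) hd
  refine ⟨r, hr, ?_, fun h => hp (by rw [h]; ring)⟩
  rw [integral_mu]
  · have e1 : (∫ x in Set.Icc t (t + 1), fA d l0 (x, 0) * conj (ex l (x, 0))) = r := by
      rw [← he, ← coef t d _ hd h1 h2]
      apply integral_congr_ae
      filter_upwards with x
      simp only [fA, if_true, ex, mul_zero, add_zero]
      rw [mul_assoc, ← Complex.exp_conj, ← Complex.exp_add]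
      congr 2
      simp only [map_mul, Complex.conj_I, Complex.conj_ofReal]
      have : conj (2 : ℂ) = 2 := Complex.conj_ofNat 2
      rw [this]
      push_cast
      ring
    have e2 : (∫ y in Set.Icc t (t + 1), fA d l0 (0, y) * conj (ex l (0, y))) = 0 := by
      rw [← integral_zero ℝ ℂ (μ := volume.restrict (Set.Icc t (t + 1)))]
      apply integral_congr_ae
      filter_upwards [ae_ne t] with y hy
      simp [fA, hy]
    rw [e1, e2, add_zero]
  · exact (fA_meas d l0).mul (Complex.continuous_conj.comp (ex_cont l)).stronglyMeasurable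
  · refine ⟨d, fun p => ?_⟩
    rw [norm_mul, RCLike.norm_conj, ex_norm, mul_one]
    exact fA_le d hd l0 p

lemma coefB (t d : ℝ) (hd : 0 < d) (h1 : d ≤ -t) (h2 : d ≤ t + 1) (l0 l : ℝ × ℝ) :
    ∃ r : ℝ, 0 ≤ r ∧ (∫ p, fB d l0 p * conj (ex l p) ∂(mu t)) = r ∧ (l = l0 → 0 < r) := by
  obtain ⟨r, hr, he, hp⟩ := full d (2 * π * (l0.2 - l.2)) hd
  refine ⟨r, hr, ?_, fun h => hp (by rw [h]; ring)⟩
  rw [integral_mu]
  · have e1 : (∫ x in Set.Icc t (t + 1), fB d l0 (0, x) * conj (ex l (0, x))) = r := by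
      rw [← he, ← coef t d _ hd h1 h2]
      apply integral_congr_ae
      filter_upwards with x
      simp only [fB, if_true, ex, mul_zero, zero_add]
      rw [mul_assoc, ← Complex.exp_conj, ← Complex.exp_add]
      congr 2
      simp only [map_mul, Complex.conj_I, Complex.conj_ofReal]
      have : conj (2 : ℂ) = 2 := Complex.conj_ofNat 2
      rw [this]
      push_cast
      ring
    have e2 : (∫ y in Set.Icc t (t + 1), fB d l0 (y, 0) * conj (ex l (y, 0))) = 0 := by
      rw [← integral_zero ℝ ℂ (μ := volume.restrict (Set.Icc t (t + 1)))]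
      apply integral_congr_ae
      filter_upwards [ae_ne t] with y hy
      simp [fB, hy]
    rw [e1, e2, zero_add]
  · exact (fB_meas d l0).mul (Complex.continuous_conj.comp (ex_cont l)).stronglyMeasurable
  · refine ⟨d, fun p => ?_⟩
    rw [norm_mul, RCLike.norm_conj, ex_norm, mul_one]
    exact fB_le d hd l0 p

lemma ortho (t d : ℝ) (hd : 0 < d) (l0 : ℝ × ℝ) :
    ∫ p, ‖fA d l0 p + fB d l0 p‖ ^ 2 ∂(mu t)
      = (∫ p, ‖fA d l0 p‖ ^ 2 ∂(mu t)) + ∫ p, ‖fB d l0 p‖ ^ 2 ∂(mu t) := by
  have hA := fA_meas d l0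
  have hB := fB_meas d l0
  have bA : ∀ p, ‖fA d l0 p‖ ^ 2 ≤ d ^ 2 := fun p =>
    pow_le_pow_left₀ (norm_nonneg _) (fA_le d hd l0 p) 2
  have bB : ∀ p, ‖fB d l0 p‖ ^ 2 ≤ d ^ 2 := fun p =>
    pow_le_pow_left₀ (norm_nonneg _) (fB_le d hd l0 p) 2
  rw [← integral_add]
  · have hz : ∀ p, fA d l0 p * fB d l0 p ≠ 0 → p = 0 := by
      intro p hp
      unfold fA fB at hp
      by_contra hne
      apply hp
      by_cases h1 : p.1 = 0
      · by_cases h2 : p.2 = 0
        · exact absurd (Prod.ext h1 h2) hne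
        · simp [h2]
      · simp [h1]
    have hnull : mu t {(0 : ℝ × ℝ)} = 0 := by
      unfold mu
      rw [Measure.add_apply, Measure.map_apply meas_one (measurableSet_singleton _),
        Measure.map_apply meas_two (measurableSet_singleton _)]
      have s1 : (fun x : ℝ => (x, (0 : ℝ))) ⁻¹' {(0 : ℝ × ℝ)} = {0} := by
        ext x; simp [Prod.ext_iff]
      have s2 : (fun y : ℝ => ((0 : ℝ), y)) ⁻¹' {(0 : ℝ × ℝ)} = {0} := by
        ext x; simp [Prod.ext_iff]
      rw [s1, s2]
      simp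
    apply integral_congr_ae
    filter_upwards [measure_eq_zero_iff_ae_notMem.1 hnull] with p hp
    have : fA d l0 p * fB d l0 p = 0 := by
      by_contra hne
      exact hp (hz p hne)
    rcases mul_eq_zero.1 this with h | h
    · simp [h]
    · simp [h]
  · exact Integrable.of_bound (hA.norm.pow 2).aestronglyMeasurable (d ^ 2)
      (Filter.Eventually.of_forall fun p => by
        rw [Real.norm_of_nonneg (by positivity)]; exact bA p)
  · exact Integrable.of_bound (hB.norm.pow 2).aestronglyMeasurable (d ^ 2)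
      (Filter.Eventually.of_forall fun p => by
        rw [Real.norm_of_nonneg (by positivity)]; exact bB p)

theorem not_tight (t : ℝ) (ht : -1 < t) (ht' : t < 0) (Lam : Set (ℝ × ℝ)) (A : ℝ) (hA : 0 < A)
    (h : IsTight t Lam A) : False := by
  -- `Lam` is not empty
  have hne : Lam.Nonempty := by
    by_contra hem
    rw [Set.not_nonempty_iff_eq_empty] at hem
    subst hem
    have h1 := h (fun _ => 1) (memLp_const 1)
    have h2 := h1.unique (hasSum_empty)
    have h3 : (0 : ℝ) < ∫ _p : ℝ × ℝ, ‖(1 : ℂ)‖ ^ 2 ∂(mu t) := by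
      rw [integral_mu t (fun _ => ‖(1 : ℂ)‖ ^ 2) stronglyMeasurable_const ⟨1, by simp⟩]
      simp
    have h4 := mul_pos hA h3
    linarith
  obtain ⟨l0, hl0⟩ := hne
  set d := min (-t) (t + 1) with hd'
  have hd : 0 < d := lt_min (by linarith) (by linarith)
  have hd1 : d ≤ -t := min_le_left _ _
  have hd2 : d ≤ t + 1 := min_le_right _ _
  choose a ha ha1 ha2 using fun l : ℝ × ℝ => coefA t d hd hd1 hd2 l0 l
  choose b hb hb1 hb2 using fun l : ℝ × ℝ => coefB t d hd hd1 hd2 l0 l
  have mA : MemLp (fA d l0) 2 (mu t) :=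
    MemLp.of_bound (fA_meas d l0).aestronglyMeasurable d
      (Filter.Eventually.of_forall (fA_le d hd l0))
  have mB : MemLp (fB d l0) 2 (mu t) :=
    MemLp.of_bound (fB_meas d l0).aestronglyMeasurable d
      (Filter.Eventually.of_forall (fB_le d hd l0))
  have sA := h _ mA
  have sB := h _ mB
  have sAB := h _ (mA.add mB)
  have iA : ∀ l, Integrable (fun p => fA d l0 p * conj (ex l p)) (mu t) := fun l =>
    Integrable.of_bound ((fA_meas d l0).mul
      (Complex.continuous_conj.comp (ex_cont l)).stronglyMeasurable).aestronglyMeasurable d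
      (Filter.Eventually.of_forall fun p => by
        rw [norm_mul, RCLike.norm_conj, ex_norm, mul_one]; exact fA_le d hd l0 p)
  have iB : ∀ l, Integrable (fun p => fB d l0 p * conj (ex l p)) (mu t) := fun l =>
    Integrable.of_bound ((fB_meas d l0).mul
      (Complex.continuous_conj.comp (ex_cont l)).stronglyMeasurable).aestronglyMeasurable d
      (Filter.Eventually.of_forall fun p => by
        rw [norm_mul, RCLike.norm_conj, ex_norm, mul_one]; exact fB_le d hd l0 p)
  have eAB : ∀ l : ℝ × ℝ, (∫ p, (fA d l0 + fB d l0) p * conj (ex l p) ∂(mu t))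
      = ((a l + b l : ℝ) : ℂ) := by
    intro l
    have : ∀ p, (fA d l0 + fB d l0) p * conj (ex l p)
        = fA d l0 p * conj (ex l p) + fB d l0 p * conj (ex l p) := by
      intro p; simp [add_mul]
    simp only [this]
    rw [integral_add (iA l) (iB l), ha1, hb1]
    push_cast
    ring
  simp only [ha1] at sA
  simp only [hb1] at sB
  simp only [eAB] at sAB
  simp only [Complex.norm_real, Real.norm_eq_abs, sq_abs] at sA sB sAB
  have s0 := (sAB.sub sA).sub sB
  have horth := ortho t d hd l0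
  simp only [Pi.add_apply] at s0
  rw [horth] at s0
  generalize (∫ p, ‖fA d l0 p‖ ^ 2 ∂(mu t)) = IA at s0
  generalize (∫ p, ‖fB d l0 p‖ ^ 2 ∂(mu t)) = IB at s0
  have e0 : A * (IA + IB) - A * IA - A * IB = 0 := by ring
  have e1 : ∀ x y : ℝ, (x + y) ^ 2 - x ^ 2 - y ^ 2 = 2 * (x * y) := by intro x y; ring
  rw [e0] at s0
  simp only [e1] at s0
  have s1 : HasSum (fun l : Lam => 2 * (a l * b l)) 0 := s0
  have s2 := (hasSum_zero_iff_of_nonneg (fun l : Lam => by
    have := ha l; have := hb l; positivity)).1 s1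
  have s3 := congrFun s2 ⟨l0, hl0⟩
  have p1 := ha2 l0 rfl
  have p2 := hb2 l0 rfl
  simp only [Pi.zero_apply] at s3
  have := mul_pos p1 p2
  linarith

theorem onb_tight (t : ℝ) (Lam : Set (ℝ × ℝ)) (h : IsONB t Lam) : IsTight t Lam 2 := by
  obtain ⟨b, hb⟩ := h
  intro f hf
  have h1 := b.hasSum_inner_mul_inner (hf.toLp f) (hf.toLp f)
  have hco : ∀ l : Lam, inner ℂ (b l) (hf.toLp f)
      = ((1 / √2 : ℝ) : ℂ) * ∫ p, f p * conj (ex l p) ∂(mu t) := by
    intro l
    rw [L2.inner_def, ← integral_const_mul]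
    apply integral_congr_ae
    filter_upwards [hb l, hf.coeFn_toLp] with p h1 h2
    rw [h1, h2]
    simp only [RCLike.inner_apply, map_mul, Complex.conj_ofReal]
    ring
  have h2 : ∀ l : Lam, inner ℂ (hf.toLp f) (b l) * inner ℂ (b l) (hf.toLp f)
      = ((1 / 2 * ‖∫ p, f p * conj (ex l p) ∂(mu t)‖ ^ 2 : ℝ) : ℂ) := by
    intro l
    rw [← inner_conj_symm, ← Complex.normSq_eq_conj_mul_self, Complex.normSq_eq_norm_sq, hco,
      norm_mul, Complex.norm_real, Real.norm_of_nonneg (by positivity), mul_pow, div_pow,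
      Real.sq_sqrt (by norm_num)]
    norm_num
  simp only [h2] at h1
  have h3 : inner ℂ (hf.toLp f) (hf.toLp f) = ((∫ p, ‖f p‖ ^ 2 ∂(mu t) : ℝ) : ℂ) := by
    rw [L2.inner_def, ← integral_complex_ofReal]
    apply integral_congr_ae
    filter_upwards [hf.coeFn_toLp] with p h2
    rw [h2, inner_self_eq_norm_sq_to_K]
    simp
  rw [h3] at h1
  have h4 : HasSum (fun l : Lam => 1 / 2 * ‖∫ p, f p * conj (ex l p) ∂(mu t)‖ ^ 2)
      (∫ p, ‖f p‖ ^ 2 ∂(mu t)) := by
    exact_mod_cast h1
  have h5 := h4.mul_left 2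
  have e : ∀ r : ℝ, 2 * (1 / 2 * r) = r := by intro r; ring
  simp only [e] at h5
  exact h5

/-- **Full answer to Q1.** For every `t` with `-1 < t < 0` (in particular for all
`-1/2 <= t < 0`) the overlapping symmetric additive space `L^2(mu t)` has no exponential
orthonormal basis, and not even a tight frame of exponentials. -/
theorem result (t : ℝ) (ht : -1 < t) (ht' : t < 0) :
    (¬ ∃ Lam : Set (ℝ × ℝ), IsONB t Lam) ∧
      ¬ ∃ (Lam : Set (ℝ × ℝ)) (A : ℝ), 0 < A ∧ IsTight t Lam A := by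
  constructor
  · rintro ⟨Lam, h⟩
    exact not_tight t ht ht' Lam 2 (by norm_num) (onb_tight t Lam h)
  · rintro ⟨Lam, A, hA, h⟩
    exact not_tight t ht ht' Lam A hA h

end Pool.Agent.Results.MP_476b1b_an.NoBasis
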